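import Mathlib

/-!
# A right-angled Artin group of infinite rank without sharply `k`-transitive order actions
-/

namespace Pool.Agent.Results.MP_781439_al.ThresholdGraph

/-- The defining relators `u v u⁻¹ v⁻¹`, for adjacent vertices. -/
def rels (Γ : SimpleGraph ℕ) : Set (FreeGroup ℕ) :=
  {r | ∃ u v, Γ.Adj u v ∧
    r = FreeGroup.of u * FreeGroup.of v * (FreeGroup.of u)⁻¹ * (FreeGroup.of v)⁻¹}

/-- The right-angled Artin group of a simplicial graph. -/
abbrev RAAG (Γ : SimpleGraph ℕ) : Type := PresentedGroup (rels Γ)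

/-- `G` has a sharply `k`-transitive action by order-preserving bijections of `(ℚ, <)`. -/
def HasSharpAction (k : ℕ) (G : Type) [Group G] : Prop :=
  ∃ ρ : G →* (ℚ ≃o ℚ), ∀ A B : Finset ℚ, A.card = k → B.card = k →
    ∃! g : G, A.image (ρ g) = B

/-- `G` is a direct product of two infinite groups. -/
def IsProduct (G : Type) [Group G] : Prop :=
  ∃ (H₁ H₂ : Type) (_ : Group H₁) (_ : Group H₂), Infinite H₁ ∧ Infinite H₂ ∧
    Nonempty (G ≃* H₁ × H₂)

/-- The graph: different numbers are adjacent when the larger one is odd. -/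
def gr : SimpleGraph ℕ where
  Adj i j := i ≠ j ∧ Odd (max i j)
  symm := ⟨fun i j h => ⟨h.1.symm, by rw [max_comm]; exact h.2⟩⟩
  loopless := ⟨fun i h => h.1 rfl⟩

/-- The group. -/
abbrev G : Type := RAAG gr

/-- The generators. -/
def v (i : ℕ) : G := PresentedGroup.of i

lemma comm_gen {i j : ℕ} (h : gr.Adj i j) : v i * v j = v j * v i := by
  have h1 : v i * v j * (v i)⁻¹ * (v j)⁻¹ = 1 := by
    have : FreeGroup.of i * FreeGroup.of j * (FreeGroup.of i)⁻¹ * (FreeGroup.of j)⁻¹ ∈
        Subgroup.normalClosure (rels gr) :=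
      Subgroup.subset_normalClosure ⟨i, j, h, rfl⟩
    exact (QuotientGroup.eq_one_iff _).2 this
  have h2 := mul_inv_eq_one.1 h1
  exact mul_inv_eq_iff_eq_mul.1 h2

/-- Homomorphisms out of the group. -/
lemma exists_hom {K : Type} [Group K] (f : ℕ → K)
    (hf : ∀ i j, i < j → Odd j → f i * f j = f j * f i) :
    ∃ φ : G →* K, ∀ i, φ (v i) = f i := by
  have hrel : ∀ r ∈ rels gr, FreeGroup.lift f r = 1 := by
    rintro _ ⟨i, j, ⟨hne, hodd⟩, rfl⟩
    simp only [map_mul, map_inv, FreeGroup.lift_apply_of]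
    rw [mul_inv_eq_one, mul_inv_eq_iff_eq_mul]
    rcases lt_or_gt_of_ne hne with h | h
    · rw [max_eq_right h.le] at hodd
      exact hf i j h hodd
    · rw [max_eq_left h.le] at hodd
      exact (hf j i h hodd).symm
  exact ⟨PresentedGroup.toGroup hrel, fun i => PresentedGroup.toGroup.of hrel⟩

/-- The subgroup generated by the generators with small index. -/
def low (n : ℕ) : Subgroup G := Subgroup.closure (v '' {i | i < n})

lemma low_mono {m n : ℕ} (h : m ≤ n) : low m ≤ low n :=
  Subgroup.closure_mono (Set.image_mono fun _ hi => lt_of_lt_of_le hi h)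

lemma exists_low (g : G) : ∃ n, g ∈ low n := by
  let H : Subgroup G :=
    { carrier := {g | ∃ n, g ∈ low n}
      one_mem' := ⟨0, one_mem _⟩
      mul_mem' := by
        rintro a b ⟨n, hn⟩ ⟨m, hm⟩
        exact ⟨max n m, mul_mem (low_mono (le_max_left _ _) hn) (low_mono (le_max_right _ _) hm)⟩
      inv_mem' := by
        rintro a ⟨n, hn⟩
        exact ⟨n, inv_mem hn⟩ }
  have hH : g ∈ H := PresentedGroup.generated_by _ H
    (fun j => ⟨j + 1, Subgroup.subset_closure ⟨j, Nat.lt_succ_self j, rfl⟩⟩) g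
  exact hH

lemma exists_low2 (g h : G) : ∃ n, g ∈ low n ∧ h ∈ low n := by
  obtain ⟨n, hn⟩ := exists_low g
  obtain ⟨m, hm⟩ := exists_low h
  exact ⟨max n m, low_mono (le_max_left _ _) hn, low_mono (le_max_right _ _) hm⟩

lemma v_ne_one (i : ℕ) : v i ≠ 1 := by
  obtain ⟨φ, hφ⟩ := exists_hom (K := Multiplicative ℤ)
    (fun _ => Multiplicative.ofAdd 1) (fun _ _ _ _ => rfl)
  intro h
  have h1 := hφ i
  rw [h, map_one] at h1
  have h2 : (0 : ℤ) = 1 := congrArg Multiplicative.toAdd h1
  omega

/-- Two elements commute with a common nontrivial element. -/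
lemma exists_common (g h : G) : ∃ u : G, u ≠ 1 ∧ u * g = g * u ∧ u * h = h * u := by
  obtain ⟨n, hg, hh⟩ := exists_low2 g h
  have key : ∀ x ∈ low n, v (2 * n + 1) * x = x * v (2 * n + 1) := by
    intro x hx
    have hle : low n ≤ Subgroup.centralizer {v (2 * n + 1)} := by
      apply (Subgroup.closure_le _).2
      rintro _ ⟨i, hi, rfl⟩
      have hi' : i < n := hi
      rw [SetLike.mem_coe, Subgroup.mem_centralizer_singleton_iff]
      refine comm_gen ⟨?_, ?_⟩
      · omega
      · rw [max_eq_right (by omega)]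
        exact ⟨n, rfl⟩
    have := hle hx
    rw [Subgroup.mem_centralizer_singleton_iff] at this
    exact this.symm
  exact ⟨v (2 * n + 1), v_ne_one _, key g hg, key h hh⟩

/-- In the symmetric group of an infinite group, some conjugate of a left translation does not
commute with a given left translation. -/
lemma exists_conj {L : Type} [Group L] [Infinite L] (g h : L) (hg : g ≠ 1) (hh : h ≠ 1) :
    ∃ τ : Equiv.Perm L, τ⁻¹ * MulAction.toPermHom L L h * τ * MulAction.toPermHom L L g ≠
      MulAction.toPermHom L L g * (τ⁻¹ * MulAction.toPermHom L L h * τ) := by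
  classical
  -- the points `w ≠ 1, h, h⁻¹`
  obtain ⟨w, hw⟩ := Infinite.exists_notMem_finset ({1, h, h⁻¹} : Finset L)
  simp only [Finset.mem_insert, Finset.mem_singleton, not_or] at hw
  obtain ⟨hw1, hw2, hw3⟩ := hw
  obtain ⟨p, hp⟩ := Infinite.exists_notMem_finset ({1, g} : Finset L)
  simp only [Finset.mem_insert, Finset.mem_singleton, not_or] at hp
  obtain ⟨q, hq⟩ := Infinite.exists_notMem_finset ({1, g, p, g * p} : Finset L)
  simp only [Finset.mem_insert, Finset.mem_singleton, not_or] at hq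
  obtain ⟨hp1, hp2⟩ := hp
  obtain ⟨hq1, hq2, hq3, hq4⟩ := hq
  let a : Fin 4 ↪ L := ⟨![1, g, p, q], by
    intro i j hij
    fin_cases i <;> fin_cases j <;> simp_all [eq_comm]⟩
  have hhw : h * w ≠ 1 := fun e => hw3 (eq_inv_of_mul_eq_one_right e)
  have hhw2 : h * w ≠ w := fun e => hh (mul_eq_right.1 e)
  have hhw3 : h * w ≠ h := fun e => hw1 (mul_eq_left.1 e)
  let b : Fin 4 ↪ L := ⟨![1, w, h, h * w], by
    intro i j hij
    fin_cases i <;> fin_cases j <;> simp_all [eq_comm]⟩
  obtain ⟨τ, hτ⟩ := ((MulAction.isMultiplyPretransitive_iff (G := Equiv.Perm L) (α := L)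
    (n := 4)).1 (Equiv.Perm.isMultiplyPretransitive L 4)) a b
  have e0 : τ 1 = 1 := congrArg (fun f : Fin 4 ↪ L => f 0) hτ
  have e1 : τ g = w := congrArg (fun f : Fin 4 ↪ L => f 1) hτ
  have e2 : τ p = h := congrArg (fun f : Fin 4 ↪ L => f 2) hτ
  have e3 : τ q = h * w := congrArg (fun f : Fin 4 ↪ L => f 3) hτ
  refine ⟨τ, fun heq => ?_⟩
  have h1 := congrArg (fun f : Equiv.Perm L => f 1) heq
  have h2 : τ⁻¹ (h * τ (g * 1)) = g * τ⁻¹ (h * τ 1) := h1
  rw [mul_one, e1, e0, mul_one] at h2
  have e2' : τ⁻¹ h = p := by rw [← e2]; exact τ.symm_apply_apply p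
  have e3' : τ⁻¹ (h * w) = q := by rw [← e3]; exact τ.symm_apply_apply q
  rw [e2', e3'] at h2
  exact hq4 h2

instance : Infinite G := by
  obtain ⟨φ, hφ⟩ := exists_hom (K := Multiplicative ℤ)
    (fun _ => Multiplicative.ofAdd 1) (fun _ _ _ _ => rfl)
  have hs : Function.Surjective φ := by
    intro z
    refine ⟨v 0 ^ (Multiplicative.toAdd z), ?_⟩
    rw [map_zpow, hφ, ← ofAdd_zsmul]
    simp
  exact Infinite.of_surjective φ hs

/-- For nontrivial `g`, `h` some conjugate of `h` does not commute with `g`. -/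
lemma noncommuting (g h : G) (hg : g ≠ 1) (hh : h ≠ 1) :
    ∃ t : G, (t⁻¹ * h * t) * g ≠ g * (t⁻¹ * h * t) := by
  obtain ⟨n, hgn, hhn⟩ := exists_low2 g h
  obtain ⟨τ, hτ⟩ := exists_conj g h hg hh
  let f : ℕ → Equiv.Perm G := fun i =>
    if i < 2 * n then MulAction.toPermHom G G (v i) else if i = 2 * n then τ else 1
  obtain ⟨φ, hφ⟩ := exists_hom f (by
    intro i j hij hj
    by_cases h1 : j < 2 * n
    · have h2 : i < 2 * n := by omega
      simp only [f, if_pos h1, if_pos h2]
      rw [← map_mul, ← map_mul, comm_gen]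
      exact ⟨hij.ne, by rw [max_eq_right hij.le]; exact hj⟩
    · have h3 : j ≠ 2 * n := by
        rintro rfl
        exact (Nat.not_odd_iff_even.2 (even_two_mul n)) hj
      simp only [f, if_neg h1, if_neg h3, mul_one, one_mul])
  have hlow : ∀ x ∈ low n, φ x = MulAction.toPermHom G G x := by
    intro x hx
    have hle : low n ≤ φ.eqLocus (MulAction.toPermHom G G) := by
      apply (Subgroup.closure_le _).2
      rintro _ ⟨i, hi, rfl⟩
      have hi' : i < n := hi
      show φ (v i) = MulAction.toPermHom G G (v i)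
      rw [hφ]
      exact if_pos (by omega)
    exact hle hx
  refine ⟨v (2 * n), fun heq => hτ ?_⟩
  have h1 := congrArg φ heq
  have h2 : φ (v (2 * n)) = τ := by
    rw [hφ]
    simp [f]
  simp only [map_mul, map_inv, hlow g hgn, hlow h hhn, h2] at h1
  exact h1

lemma not_product : ¬ IsProduct G := by
  rintro ⟨H₁, H₂, _, _, h1, h2, ⟨e⟩⟩
  obtain ⟨x, hx⟩ := exists_ne (1 : H₁)
  obtain ⟨y, hy⟩ := exists_ne (1 : H₂)
  obtain ⟨t, ht⟩ := noncommuting (e.symm (x, 1)) (e.symm (1, y))
    (by
      intro h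
      rw [← map_one e.symm] at h
      exact hx (congrArg Prod.fst (e.symm.injective h)))
    (by
      intro h
      rw [← map_one e.symm] at h
      exact hy (congrArg Prod.snd (e.symm.injective h)))
  apply ht
  apply e.injective
  simp only [map_mul, map_inv, MulEquiv.apply_symm_apply]
  refine Prod.ext ?_ ?_
  · simp
  · simp

lemma not_cyclic : ¬ IsCyclic G := by
  intro h
  obtain ⟨t, ht⟩ := noncommuting (v 0) (v 0) (v_ne_one 0) (v_ne_one 0)
  obtain ⟨g, hg⟩ := h.exists_generator
  obtain ⟨a, ha⟩ := hg (t⁻¹ * v 0 * t)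
  obtain ⟨b, hb⟩ := hg (v 0)
  apply ht
  simp only [] at ha hb
  rw [← ha, ← hb, ← zpow_add, ← zpow_add, add_comm]

/-- An order automorphism preserving a finite set fixes it pointwise. -/
lemma fix_of_finite (σ : ℚ ≃o ℚ) (S : Set ℚ) (hS : S.Finite) (h : ∀ x ∈ S, σ x ∈ S) :
    ∀ x ∈ S, σ x = x := by
  intro x hx
  by_contra hne
  have hit : ∀ n : ℕ, (σ^[n]) x ∈ S := by
    intro n
    induction n with
    | zero => exact hx
    | succ n ih => rw [Function.iterate_succ_apply']; exact h _ ih
  have hinj : Function.Injective (fun n : ℕ => (σ^[n]) x) := by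
    rcases lt_or_gt_of_ne hne with hlt | hgt
    · have : StrictAnti (fun n : ℕ => (σ^[n]) x) := by
        apply strictAnti_nat_of_succ_lt
        intro n
        induction n with
        | zero => simpa using hlt
        | succ n ih =>
          have h1 := σ.strictMono ih
          rwa [← Function.iterate_succ_apply' (⇑σ) (n + 1) x,
            ← Function.iterate_succ_apply' (⇑σ) n x] at h1
      exact this.injective
    · have : StrictMono (fun n : ℕ => (σ^[n]) x) := by
        apply strictMono_nat_of_lt_succ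
        intro n
        induction n with
        | zero => simpa using hgt
        | succ n ih =>
          have h1 := σ.strictMono ih
          rwa [← Function.iterate_succ_apply' (⇑σ) (n + 1) x,
            ← Function.iterate_succ_apply' (⇑σ) n x] at h1
      exact this.injective
  exact Set.infinite_of_injective_forall_mem hinj hit hS

/-- The minimum is mapped to the minimum. -/
lemma min_image (σ : ℚ ≃o ℚ) (A B : Finset ℚ) (h : A.image σ = B) (a b : ℚ) (ha : a ∈ A)
    (ha' : ∀ x ∈ A, a ≤ x) (hb : b ∈ B) (hb' : ∀ x ∈ B, b ≤ x) : σ a = b := by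
  apply le_antisymm
  · rw [← h, Finset.mem_image] at hb
    obtain ⟨x, hx, rfl⟩ := hb
    exact σ.monotone (ha' x hx)
  · apply hb'
    rw [← h]
    exact Finset.mem_image_of_mem _ ha

/-- Finite sets of naturals, as sets of rationals. -/
def emb (A : Finset ℕ) : Finset ℚ := A.image (fun n : ℕ => (n : ℚ))

lemma card_emb (A : Finset ℕ) : (emb A).card = A.card :=
  Finset.card_image_of_injective _ Nat.cast_injective

lemma no_action (k : ℕ) (hk : 2 ≤ k) : ¬ HasSharpAction k G := by
  rintro ⟨ρ, hρ⟩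
  -- fixed point sets are finite
  have hfin : ∀ g : G, g ≠ 1 → {x | ρ g x = x}.Finite := by
    intro g hg
    by_contra hinf
    obtain ⟨C, hC, hCk⟩ := Set.Infinite.exists_subset_card_eq hinf k
    obtain ⟨g₀, -, huniq⟩ := hρ C C hCk hCk
    have e1 : C.image (ρ g) = C := by
      ext x
      rw [Finset.mem_image]
      constructor
      · rintro ⟨y, hy, rfl⟩
        have : ρ g y = y := hC hy
        rwa [this]
      · intro hx
        exact ⟨x, hx, hC hx⟩
    have e2 : C.image (ρ 1) = C := by
      rw [map_one]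
      ext x
      rw [Finset.mem_image]
      constructor
      · rintro ⟨y, hy, rfl⟩
        exact hy
      · intro hx
        exact ⟨x, hx, rfl⟩
    have h1 := huniq g e1
    have h2 := huniq 1 e2
    exact hg (h1.trans h2.symm)
  -- commuting elements
  have hcomm : ∀ g h : G, g ≠ 1 → h * g = g * h → ∀ x, ρ g x = x → ρ h x = x := by
    intro g h hg hgh x hx
    refine fix_of_finite (ρ h) {x | ρ g x = x} (hfin g hg) ?_ x hx
    intro y hy
    have hy' : ρ g y = y := hy
    show ρ g (ρ h y) = ρ h y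
    have : ρ g (ρ h y) = ρ (g * h) y := by rw [map_mul]; rfl
    rw [this, ← hgh, map_mul]
    show ρ h (ρ g y) = ρ h y
    rw [hy']
  let A : Finset ℚ := emb (Finset.range k)
  let B : Finset ℚ := emb (insert k (Finset.range (k - 1)))
  let D : Finset ℚ := emb (Finset.Icc 1 k)
  have hA : A.card = k := by rw [card_emb, Finset.card_range]
  have hB : B.card = k := by
    rw [card_emb, Finset.card_insert_of_notMem (by simp), Finset.card_range]; omega
  have hD : D.card = k := by rw [card_emb, Nat.card_Icc]; omega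
  have h0A : (0 : ℚ) ∈ A := Finset.mem_image.2 ⟨0, by simp; omega, by simp⟩
  have h0B : (0 : ℚ) ∈ B :=
    Finset.mem_image.2 ⟨0, Finset.mem_insert_of_mem (by simp; omega), by simp⟩
  have h1D : (1 : ℚ) ∈ D := Finset.mem_image.2 ⟨1, by simp; omega, by simp⟩
  have hminA : ∀ x ∈ A, (0 : ℚ) ≤ x := by
    intro x hx
    obtain ⟨n, -, rfl⟩ := Finset.mem_image.1 hx
    exact Nat.cast_nonneg n
  have hminB : ∀ x ∈ B, (0 : ℚ) ≤ x := by
    intro x hx
    obtain ⟨n, -, rfl⟩ := Finset.mem_image.1 hx
    exact Nat.cast_nonneg n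
  have hminD : ∀ x ∈ D, (1 : ℚ) ≤ x := by
    intro x hx
    obtain ⟨n, hn, rfl⟩ := Finset.mem_image.1 hx
    have := (Finset.mem_Icc.1 hn).1
    exact_mod_cast this
  obtain ⟨g, hg, -⟩ := hρ A B hA hB
  have hg1 : g ≠ 1 := by
    rintro rfl
    have hkB : (k : ℚ) ∈ B := Finset.mem_image.2 ⟨k, Finset.mem_insert_self _ _, rfl⟩
    rw [← hg, Finset.mem_image] at hkB
    obtain ⟨x, hx, hx'⟩ := hkB
    rw [map_one] at hx'
    obtain ⟨n, hn, rfl⟩ := Finset.mem_image.1 hx
    have h1 : (n : ℚ) = k := hx'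
    have h2 : n = k := by exact_mod_cast h1
    rw [Finset.mem_range] at hn
    omega
  have hg0 : ρ g 0 = 0 := min_image (ρ g) A B hg 0 0 h0A hminA h0B hminB
  have hall : ∀ h : G, ρ h 0 = 0 := by
    intro h
    obtain ⟨u, hu1, hug, huh⟩ := exists_common g h
    have hu0 : ρ u 0 = 0 := hcomm g u hg1 hug 0 hg0
    exact hcomm u h hu1 huh.symm 0 hu0
  obtain ⟨h, hh, -⟩ := hρ A D hA hD
  have h1 : ρ h 0 = 1 := min_image (ρ h) A D hh 0 1 h0A hminA h1D hminD
  rw [hall h] at h1
  norm_num at h1

/-- There is a countably infinite graph whose right-angled Artin group is not cyclic and not a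
direct product of two infinite groups, but has no sharply `k`-transitive action by order-preserving
bijections of the rationals for any `k ≥ 2`. -/
theorem result : ∃ Γ : SimpleGraph ℕ, ¬ IsCyclic (RAAG Γ) ∧ ¬ IsProduct (RAAG Γ) ∧
    ∀ k, 2 ≤ k → ¬ HasSharpAction k (RAAG Γ) :=
  ⟨gr, not_cyclic, not_product, no_action⟩

end Pool.Agent.Results.MP_781439_al.ThresholdGraph
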